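import Pool.Agent.R628.SLRec
import Pool.Agent.H338R3.SubTop

/-!
# Infinite countable boomerang simple groups exist

For every field `K` of characteristic zero and every `n ≥ 3` the only boomerang subgroups of
`PSL_n(K)` are the trivial subgroup and the whole group. In particular the infinite countable group
`PSL_3(ℚ)` is boomerang simple.

The topology on the space of subgroups (induced by the product topology on the space of functions
from the group to the two point discrete space) and the conjugation action
`cj g Δ = g Δ g⁻¹` are those of the file `Pool.Agent.H338R3.SubTop`.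
-/

set_option autoImplicit false

universe u

namespace Pool.Agent.Results.MP_80afb3_al.BoomerangSimplePSL

open Topology Pool.Agent.H338R3 Pool.Agent.R628

/-- `Δ` is recurrent for `γ`: every neighbourhood of `Δ` in the space of subgroups contains
`γ ^ n Δ γ ^ (-n)` for some `n ≥ 1`. -/
def IsRecurrentFor {G : Type u} [Group G] (γ : G) (Δ : Subgroup G) : Prop :=
  ∀ O ∈ 𝓝 Δ, ∃ n : ℕ, 1 ≤ n ∧ cj (γ ^ n) Δ ∈ O

/-- A boomerang subgroup: a subgroup that is recurrent for every element of the group. -/
def IsBoomerangSubgroup {G : Type u} [Group G] (Δ : Subgroup G) : Prop :=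
  ∀ γ : G, IsRecurrentFor γ Δ

/-- A group is boomerang simple if its boomerang subgroups are exactly the trivial subgroup and the
whole group. -/
def IsBoomerangSimple (G : Type u) [Group G] : Prop :=
  ∀ Δ : Subgroup G, IsBoomerangSubgroup Δ ↔ Δ = ⊥ ∨ Δ = ⊤

lemma cj_bot {G : Type u} [Group G] (g : G) : cj g (⊥ : Subgroup G) = ⊥ := by
  simp [cj]

lemma cj_top {G : Type u} [Group G] (g : G) : cj g (⊤ : Subgroup G) = ⊤ := by
  ext x
  simp [mem_cj]

lemma boomerang_of_invariant {G : Type u} [Group G] {Δ : Subgroup G} (h : ∀ g, cj g Δ = Δ) :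
    IsBoomerangSubgroup Δ :=
  fun γ _ hO => ⟨1, le_rfl, by rw [h]; exact mem_of_mem_nhds hO⟩

/-- boomerang subgroups have the weak recurrence property -/
lemma weakRec_of_boomerang {G : Type u} [Group G] {Δ : Subgroup G} (h : IsBoomerangSubgroup Δ) :
    WeakRec Δ := by
  intro g x hx
  obtain ⟨n, hn, hmem⟩ := h g _ ((isClopen_mem x).isOpen.mem_nhds hx)
  exact ⟨n, hn, (mem_cj _ _ _).mp hmem⟩

theorem boomerangSimple_PSL (K : Type u) [Field K] [CharZero K] (n : ℕ) (hn : 3 ≤ n) :
    IsBoomerangSimple (Matrix.ProjectiveSpecialLinearGroup (Fin n) K) := by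
  intro Δ
  constructor
  · intro h
    have h1 := weakRec_of_boomerang h
    let π : Matrix.SpecialLinearGroup (Fin n) K →* Matrix.ProjectiveSpecialLinearGroup (Fin n) K :=
      QuotientGroup.mk' _
    have hπ : Function.Surjective π := QuotientGroup.mk'_surjective _
    have h2 : WeakRec (Δ.comap π) := by
      intro g x hx
      obtain ⟨m, hm, hmem⟩ := h1 (π g) (π x) hx
      refine ⟨m, hm, ?_⟩
      rw [Subgroup.mem_comap]
      simpa using hmem
    rcases weakRec_SL (by simpa using hn) h2 with h3 | h3
    · left
      rw [eq_bot_iff]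
      intro y hy
      obtain ⟨x, rfl⟩ := hπ y
      have : x ∈ Subgroup.center _ := h3 hy
      rw [Subgroup.mem_bot]
      exact (QuotientGroup.eq_one_iff x).mpr this
    · right
      rw [eq_top_iff]
      intro y _
      obtain ⟨x, rfl⟩ := hπ y
      have : x ∈ Δ.comap π := h3 ▸ Subgroup.mem_top x
      exact this
  · rintro (rfl | rfl)
    · exact boomerang_of_invariant cj_bot
    · exact boomerang_of_invariant cj_top

lemma infinite_PSL (K : Type u) [Field K] [CharZero K] (n : ℕ) (hn : 3 ≤ n) :
    Infinite (Matrix.ProjectiveSpecialLinearGroup (Fin n) K) := by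
  have : NeZero n := ⟨by omega⟩
  have h01 : (⟨0, by omega⟩ : Fin n) ≠ ⟨1, by omega⟩ := by
    simp
  have hK : Infinite K := Infinite.of_injective (Nat.cast : ℕ → K) Nat.cast_injective
  refine Infinite.of_injective (fun a : K => (QuotientGroup.mk
    (Matrix.SpecialLinearGroup.transvection h01 a) :
      Matrix.ProjectiveSpecialLinearGroup (Fin n) K)) ?_
  intro a b hab
  have h1 := QuotientGroup.eq.mp hab
  rw [Matrix.SpecialLinearGroup.transvection_inv, ← Matrix.SpecialLinearGroup.transvection_add,
    Matrix.SpecialLinearGroup.transvection_mem_center_iff] at h1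
  linear_combination -h1

lemma countable_PSL (K : Type u) [Field K] [Countable K] (n : ℕ) :
    Countable (Matrix.ProjectiveSpecialLinearGroup (Fin n) K) := by
  have h1 : Countable (Matrix (Fin n) (Fin n) K) :=
    inferInstanceAs (Countable (Fin n → Fin n → K))
  have h2 : Countable (Matrix.SpecialLinearGroup (Fin n) K) :=
    Function.Injective.countable (f := fun g => (g : Matrix (Fin n) (Fin n) K))
      Subtype.val_injective
  exact Quotient.countable

/-- There is an infinite countable group whose only boomerang subgroups are the trivial subgroup and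
the whole group; in fact, for every field `K` of characteristic zero and every `n ≥ 3`, the group
`PSL_n(K)` (which is infinite, and countable if `K` is) has this property. -/
theorem result :
    (∃ (Γ : Type) (_ : Group Γ), Infinite Γ ∧ Countable Γ ∧ IsBoomerangSimple Γ) ∧
    ∀ (K : Type u) [Field K] [CharZero K] (n : ℕ), 3 ≤ n →
      Infinite (Matrix.ProjectiveSpecialLinearGroup (Fin n) K) ∧
      (Countable K → Countable (Matrix.ProjectiveSpecialLinearGroup (Fin n) K)) ∧
      IsBoomerangSimple (Matrix.ProjectiveSpecialLinearGroup (Fin n) K) :=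
  ⟨⟨Matrix.ProjectiveSpecialLinearGroup (Fin 3) ℚ, inferInstance, infinite_PSL ℚ 3 le_rfl,
      countable_PSL ℚ 3, boomerangSimple_PSL ℚ 3 le_rfl⟩,
    fun K _ _ n hn => ⟨infinite_PSL K n hn, fun _ => countable_PSL K n,
      boomerangSimple_PSL K n hn⟩⟩

end Pool.Agent.Results.MP_80afb3_al.BoomerangSimplePSL
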